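import Pool.Agent.Q210.HX.Hinv
import Pool.Agent.Q170.ZP.MultiCount

/-!
# Job HCURVE: an infinite orbit of a Hénon map is not contained in a curve (helper210)
-/

set_option autoImplicit false

namespace Pool.Agent.Q210.HX

open MvPolynomial

section

variable {K : Type} [Field K]

theorem relPrime_map {R S : Type} [CommRing R] [CommRing S] (e : R ≃+* S) {a b : R}
    (h : IsRelPrime a b) : IsRelPrime (e a) (e b) := by
  intro d hda hdb
  have h1 : e.symm d ∣ a := by
    have := map_dvd e.symm hda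
    rwa [RingEquiv.symm_apply_apply] at this
  have h2 : e.symm d ∣ b := by
    have := map_dvd e.symm hdb
    rwa [RingEquiv.symm_apply_apply] at this
  have h3 := (h h1 h2).map e
  rwa [RingEquiv.apply_symm_apply] at h3

/-- the inverse of `ph` -/
noncomputable def bk : Polynomial (Polynomial K) →+* MvPolynomial (Fin 2) K :=
  Polynomial.eval₂RingHom (Polynomial.aeval (X 1 : MvPolynomial (Fin 2) K)).toRingHom (X 0)

/-- the isomorphism -/
noncomputable def phe : MvPolynomial (Fin 2) K ≃+* Polynomial (Polynomial K) :=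
  RingEquiv.ofRingHom (ph (K := K)).toRingHom bk
    (by
      apply Polynomial.ringHom_ext'
      · apply Polynomial.ringHom_ext'
        · ext a
          simp [bk, ph]
        · simp [bk, ph]
      · simp [bk, ph])
    (by
      apply MvPolynomial.ringHom_ext
      · intro a
        simp [bk, ph]
      · intro i
        fin_cases i
        · simp [bk, ph]
        · simp [bk, ph])

theorem eval_ph (a b : K) (p : MvPolynomial (Fin 2) K) :
    ((ph p).eval (Polynomial.C a)).eval b = aeval ![a, b] p := by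
  have h1 : ((Polynomial.evalRingHom b).comp ((Polynomial.evalRingHom (Polynomial.C a)).comp
      (ph (K := K)).toRingHom)) = (aeval ![a, b] : MvPolynomial (Fin 2) K →ₐ[K] K).toRingHom := by
    apply MvPolynomial.ringHom_ext
    · intro c
      simp [ph]
    · intro i
      fin_cases i
      · simp [ph]
      · simp [ph]
  exact RingHom.congr_fun h1 p

/-- common zeros of relatively prime polynomials: the second coordinate -/
theorem elim {p q : MvPolynomial (Fin 2) K} (h : IsRelPrime p q) :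
    ∃ c : Polynomial K, c ≠ 0 ∧ ∀ a b, aeval ![a, b] p = 0 → aeval ![a, b] q = 0 →
      c.eval b = 0 := by
  obtain ⟨c, A, B, hc, hAB⟩ := Pool.Agent.Q170.ZP.Count.bezout (phe p) (phe q)
    (relPrime_map phe h)
  refine ⟨c, hc, fun a b hp hq => ?_⟩
  have h1 := congrArg (fun r => (Polynomial.eval (Polynomial.C a) r).eval b) hAB
  simp only [Polynomial.eval_add, Polynomial.eval_mul, Polynomial.eval_C] at h1
  have h2 : ((phe p).eval (Polynomial.C a)).eval b = 0 := by
    rw [← hp]
    exact eval_ph a b p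
  have h3 : ((phe q).eval (Polynomial.C a)).eval b = 0 := by
    rw [← hq]
    exact eval_ph a b q
  rw [h2, h3, mul_zero, mul_zero, add_zero] at h1
  exact h1.symm

/-- common zeros of relatively prime polynomials: the first coordinate -/
theorem elim' {p q : MvPolynomial (Fin 2) K} (h : IsRelPrime p q) :
    ∃ c : Polynomial K, c ≠ 0 ∧ ∀ a b, aeval ![a, b] p = 0 → aeval ![a, b] q = 0 →
      c.eval a = 0 := by
  obtain ⟨c, hc, hc'⟩ := elim (relPrime_map
    (renameEquiv K (Equiv.swap (0 : Fin 2) 1)).toRingEquiv h)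
  refine ⟨c, hc, fun a b hp hq => ?_⟩
  have hsw : ∀ r : MvPolynomial (Fin 2) K, aeval ![b, a]
      ((renameEquiv K (Equiv.swap (0 : Fin 2) 1)).toRingEquiv r) = aeval ![a, b] r := by
    intro r
    have h1 : (renameEquiv K (Equiv.swap (0 : Fin 2) 1)).toRingEquiv r =
        rename (Equiv.swap (0 : Fin 2) 1) r := rfl
    rw [h1, aeval_rename]
    congr 2
    funext i
    fin_cases i
    · simp
    · simp
  exact hc' b a (by rw [hsw, hp]) (by rw [hsw, hq])

theorem finite_zeros {p q : MvPolynomial (Fin 2) K} (h : IsRelPrime p q) :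
    {z : K × K | aeval ![z.1, z.2] p = 0 ∧ aeval ![z.1, z.2] q = 0}.Finite := by
  classical
  obtain ⟨c1, hc1, h1⟩ := elim h
  obtain ⟨c2, hc2, h2⟩ := elim' h
  refine ((c2.roots.toFinset ×ˢ c1.roots.toFinset).finite_toSet).subset ?_
  rintro ⟨a, b⟩ ⟨hp, hq⟩
  rw [Finset.mem_coe, Finset.mem_product]
  refine ⟨?_, ?_⟩
  · rw [Multiset.mem_toFinset, Polynomial.mem_roots hc2]
    exact h2 a b hp hq
  · rw [Multiset.mem_toFinset, Polynomial.mem_roots hc1]
    exact h1 a b hp hq

/-- the substitution -/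
noncomputable def ta (F : Polynomial K) (δ : K) : MvPolynomial (Fin 2) K →ₐ[K]
    MvPolynomial (Fin 2) K :=
  aeval ![(X 1 : MvPolynomial (Fin 2) K), Polynomial.aeval (X 1 : MvPolynomial (Fin 2) K) F -
    C δ * X 0]

/-- the inverse substitution -/
noncomputable def ti (F : Polynomial K) (δ : K) : MvPolynomial (Fin 2) K →ₐ[K]
    MvPolynomial (Fin 2) K :=
  aeval ![C δ⁻¹ * (Polynomial.aeval (X 0 : MvPolynomial (Fin 2) K) F - X 1),
    (X 0 : MvPolynomial (Fin 2) K)]

/-- the automorphism -/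
noncomputable def te (F : Polynomial K) {δ : K} (hδ : δ ≠ 0) :
    MvPolynomial (Fin 2) K ≃ₐ[K] MvPolynomial (Fin 2) K :=
  AlgEquiv.ofAlgHom (ta F δ) (ti F δ)
    (by
      have h0 : (C δ⁻¹ * C δ : MvPolynomial (Fin 2) K) = 1 := by
        rw [← C_mul, inv_mul_cancel₀ hδ, C_1]
      have hC : ∀ u, ta F δ (C u) = C u := fun u => by
        rw [ta, aeval_C]
        rfl
      apply MvPolynomial.algHom_ext
      intro i
      fin_cases i
      · change ta F δ (ti F δ (X 0)) = X 0
        have h1 : ti F δ (X 0) = C δ⁻¹ * (Polynomial.aeval (X 0 : MvPolynomial (Fin 2) K) F - X 1) := by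
          simp [ti]
        rw [h1, map_mul, hC, map_sub, ← Polynomial.aeval_algHom_apply]
        have h2 : ta F δ (X 0) = X 1 := by simp [ta]
        have h3 : ta F δ (X 1) = Polynomial.aeval (X 1 : MvPolynomial (Fin 2) K) F - C δ * X 0 := by
          simp [ta]
        rw [h2, h3, sub_sub_cancel, ← mul_assoc, h0, one_mul]
      · change ta F δ (ti F δ (X 1)) = X 1
        simp [ta, ti])
    (by
      have h0 : (C δ * C δ⁻¹ : MvPolynomial (Fin 2) K) = 1 := by
        rw [← C_mul, mul_inv_cancel₀ hδ, C_1]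
      have hC : ∀ u, ti F δ (C u) = C u := fun u => by
        rw [ti, aeval_C]
        rfl
      apply MvPolynomial.algHom_ext
      intro i
      fin_cases i
      · change ti F δ (ta F δ (X 0)) = X 0
        simp [ta, ti]
      · change ti F δ (ta F δ (X 1)) = X 1
        have h3 : ta F δ (X 1) = Polynomial.aeval (X 1 : MvPolynomial (Fin 2) K) F - C δ * X 0 := by
          simp [ta]
        have h1 : ti F δ (X 0) = C δ⁻¹ * (Polynomial.aeval (X 0 : MvPolynomial (Fin 2) K) F - X 1) := by
          simp [ti]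
        have h2 : ti F δ (X 1) = X 0 := by simp [ti]
        rw [h3, map_sub, map_mul, hC, ← Polynomial.aeval_algHom_apply, h1, h2, ← mul_assoc, h0,
          one_mul, sub_sub_cancel])

theorem te_apply (F : Polynomial K) {δ : K} (hδ : δ ≠ 0) (p : MvPolynomial (Fin 2) K) :
    te F hδ p = aeval ![(X 1 : MvPolynomial (Fin 2) K),
      Polynomial.aeval (X 1 : MvPolynomial (Fin 2) K) F - C δ * X 0] p := rfl

theorem aeval_te (F : Polynomial K) {δ : K} (hδ : δ ≠ 0) (p : MvPolynomial (Fin 2) K) (a b : K) :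
    aeval ![a, b] (te F hδ p) = aeval ![b, F.eval b - δ * a] p := by
  rw [te_apply, comp_aeval_apply]
  congr 2
  funext i
  fin_cases i
  · simp
  · change aeval ![a, b] (Polynomial.aeval (X 1 : MvPolynomial (Fin 2) K) F - C δ * X 0) =
      F.eval b - δ * a
    rw [map_sub, map_mul, ← Polynomial.aeval_algHom_apply]
    have h1 : aeval ![a, b] (X 1 : MvPolynomial (Fin 2) K) = b := by simp
    have h2 : aeval ![a, b] (X 0 : MvPolynomial (Fin 2) K) = a := by simp
    have h3 : aeval ![a, b] (C δ : MvPolynomial (Fin 2) K) = δ := by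
      rw [aeval_C]
      rfl
    rw [h1, h2, h3, Polynomial.coe_aeval_eq_eval]

end

theorem hcurve (hinv : Pool.Agent.Q256.HX.S_hinv) : Pool.Agent.Q256.HX.S_hcurve := by
  intro K _ F δ hF hδ x hx hinj p hp
  classical
  by_contra hp0
  obtain ⟨V, hV⟩ : ∃ V : MvPolynomial (Fin 2) K → Set ℕ,
      V = fun q => {n | aeval ![x n, x (n + 1)] q = 0} := ⟨_, rfl⟩
  have hVm : ∀ q n, n ∈ V q ↔ aeval ![x n, x (n + 1)] q = 0 := by
    intro q n
    rw [hV]
    rfl
  -- common zeros
  have hrel : ∀ q q', IsRelPrime q q' → (V q ∩ V q').Finite := by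
    intro q q' h
    refine Set.Finite.of_finite_image (f := fun n => (x n, x (n + 1))) ?_ hinj.injOn
    refine (finite_zeros h).subset ?_
    rintro _ ⟨n, ⟨hn1, hn2⟩, rfl⟩
    exact ⟨(hVm _ _).1 hn1, (hVm _ _).1 hn2⟩
  have hVte : ∀ q, (V q).Infinite → (V (te F hδ q)).Infinite := by
    intro q hq hfin
    apply hq
    have h1 : V q ⊆ insert 0 (Nat.succ '' V (te F hδ q)) := by
      intro n hn
      rcases n with _ | n
      · exact Set.mem_insert _ _
      · refine Set.mem_insert_of_mem _ ⟨n, ?_, rfl⟩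
        rw [hVm, aeval_te, ← hx]
        exact (hVm _ _).1 hn
    exact ((hfin.image _).insert 0).subset h1
  -- an irreducible factor
  have hfac := UniqueFactorizationMonoid.factors_prod hp0
  have hirr : ∀ q, Irreducible q → (V q).Infinite → ∃ q' ∈
      (UniqueFactorizationMonoid.factors p).toFinset, Associated q q' := by
    intro q hq hinf
    have hdvd : q ∣ p := by
      by_contra hnd
      have h1 : IsRelPrime q p := (hq.isRelPrime_iff_not_dvd).2 hnd
      have h2 := hrel q p h1
      apply hinf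
      refine h2.subset fun n hn => ⟨hn, ?_⟩
      rw [hVm]
      exact hp n
    obtain ⟨q', hq', hass⟩ := UniqueFactorizationMonoid.exists_mem_factors_of_dvd hp0 hq hdvd
    exact ⟨q', Multiset.mem_toFinset.2 hq', hass⟩
  obtain ⟨q0, hq0, hq0inf⟩ : ∃ q0, Irreducible q0 ∧ (V q0).Infinite := by
    by_contra hcon
    push Not at hcon
    have h1 : (⋃ q ∈ (UniqueFactorizationMonoid.factors p).toFinset, V q).Finite := by
      refine Set.Finite.biUnion (Finset.finite_toSet _) fun q hq => ?_
      exact (hcon q (UniqueFactorizationMonoid.irreducible_of_factor q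
        (Multiset.mem_toFinset.1 hq)))
    refine Set.infinite_univ (α := ℕ) (h1.subset fun n _ => ?_)
    have h2 : aeval ![x n, x (n + 1)] (UniqueFactorizationMonoid.factors p).prod = 0 := by
      obtain ⟨u, hu⟩ := hfac.symm
      rw [← hu, map_mul, hp n, zero_mul]
    rw [map_multiset_prod, Multiset.prod_eq_zero_iff, Multiset.mem_map] at h2
    obtain ⟨q, hq, hq0⟩ := h2
    rw [Set.mem_iUnion₂]
    exact ⟨q, Multiset.mem_toFinset.2 hq, (hVm _ _).2 hq0⟩
  -- the orbit of the factor
  have horb : ∀ k : ℕ, Irreducible ((te F hδ)^[k] q0) ∧ (V ((te F hδ)^[k] q0)).Infinite := by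
    intro k
    induction k with
    | zero => exact ⟨hq0, hq0inf⟩
    | succ k ih =>
      rw [Function.iterate_succ_apply']
      exact ⟨(MulEquiv.irreducible_iff (te F hδ)).2 ih.1, hVte _ ih.2⟩
  choose u hu huass using fun k => hirr _ (horb k).1 (horb k).2
  obtain ⟨i, j, hij, huij⟩ : ∃ i j, i < j ∧ u i = u j := by
    obtain ⟨i, -, j, -, hne, heq⟩ := Set.infinite_univ.exists_ne_map_eq_of_mapsTo
      (f := u) (t := ((UniqueFactorizationMonoid.factors p).toFinset : Set _))
      (fun k _ => hu k) (Finset.finite_toSet _)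
    rcases lt_or_gt_of_ne hne with h | h
    · exact ⟨i, j, h, heq⟩
    · exact ⟨j, i, h, heq.symm⟩
  have hass : Associated ((te F hδ)^[j] q0) ((te F hδ)^[i] q0) :=
    (huass j).trans (by rw [← huij]; exact (huass i).symm)
  obtain ⟨Q, hQ⟩ : ∃ Q, Q = ∏ k ∈ Finset.Ico i j, (te F hδ)^[k] q0 := ⟨_, rfl⟩
  have hQ0 : Q ≠ 0 := by
    rw [hQ]
    exact Finset.prod_ne_zero_iff.2 fun k _ => (horb k).1.ne_zero
  obtain ⟨v, hv⟩ := hass
  have hQt : te F hδ Q * v = Q := by
    have h1 : te F hδ Q = ∏ k ∈ Finset.Ico i j, (te F hδ)^[k + 1] q0 := by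
      rw [hQ, map_prod]
      exact Finset.prod_congr rfl fun k _ => by rw [Function.iterate_succ_apply']
    have h2 : (te F hδ Q) * (te F hδ)^[i] q0 = Q * (te F hδ)^[j] q0 := by
      rw [h1, hQ, ← Finset.prod_Ico_succ_top hij.le, Finset.prod_eq_prod_Ico_succ_bot
        (by omega : i < j + 1), mul_comm, Finset.prod_Ico_add' (fun k => (te F hδ)^[k] q0) i j 1]
    have h4 : (te F hδ)^[j] q0 ≠ 0 := (horb j).1.ne_zero
    have h5 : te F hδ Q * ((te F hδ)^[j] q0 * v) = Q * (te F hδ)^[j] q0 := by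
      rw [hv, h2]
    apply mul_right_cancel₀ h4
    rw [← h5]
    ring
  obtain ⟨r, hr, hvr⟩ := MvPolynomial.isUnit_iff_eq_C_of_isReduced.1 v.isUnit
  have hr0 : r ≠ 0 := hr.ne_zero
  have hQc : te F hδ Q = C r⁻¹ * Q := by
    conv_rhs => rw [← hQt, hvr]
    have h0 : (C r⁻¹ * C r : MvPolynomial (Fin 2) K) = 1 := by
      rw [← C_mul, inv_mul_cancel₀ hr0, C_1]
    calc te F hδ Q = (C r⁻¹ * C r) * te F hδ Q := by rw [h0, one_mul]
      _ = C r⁻¹ * (te F hδ Q * C r) := by ring
  obtain ⟨a, ha⟩ := hinv K F δ r⁻¹ hF hδ Q hQ0 hQc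
  have ha0 : a ≠ 0 := by
    rintro rfl
    exact hQ0 (by rw [ha, C_0])
  have hdvd : (te F hδ)^[i] q0 ∣ Q := by
    rw [hQ]
    exact Finset.dvd_prod_of_mem _ (Finset.mem_Ico.2 ⟨le_rfl, hij⟩)
  have hQu : IsUnit Q := by
    rw [ha]
    exact (ha0.isUnit).map C
  exact (horb i).1.not_isUnit (isUnit_of_dvd_unit hdvd hQu)

end Pool.Agent.Q210.HX
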