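import Pool.Agent.Q256.HX.Stm

/-!
# Job HINV: no nonconstant polynomial is semi-invariant under a Hénon map (helper210)
-/

set_option autoImplicit false

namespace Pool.Agent.Q210.HX

open MvPolynomial

theorem coeff_lin {R : Type} [CommRing R] (A B : R) (j t : ℕ) :
    ((Polynomial.C A + Polynomial.C B * Polynomial.X) ^ j).coeff t =
      B ^ t * A ^ (j - t) * (j.choose t : R) := by
  have hterm : ∀ m, ((Polynomial.C B * Polynomial.X) ^ m * Polynomial.C A ^ (j - m) *
      (j.choose m : Polynomial R)).coeff t =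
        if m = t then B ^ m * A ^ (j - m) * (j.choose m : R) else 0 := by
    intro m
    have h1 : (Polynomial.C B * Polynomial.X) ^ m * Polynomial.C A ^ (j - m) *
      (j.choose m : Polynomial R) =
        Polynomial.C (B ^ m * A ^ (j - m) * (j.choose m : R)) * Polynomial.X ^ m := by
      rw [mul_pow]
      simp only [map_mul, map_pow, map_natCast]
      ring
    rw [h1, Polynomial.coeff_C_mul_X_pow]
    by_cases h : m = t
    · rw [if_pos h, if_pos h.symm]
    · rw [if_neg h, if_neg (Ne.symm h)]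
  rw [add_comm, add_pow, Polynomial.finsetSum_coeff]
  simp only [hterm]
  rw [Finset.sum_ite_eq']
  split_ifs with h
  · rfl
  · rw [Finset.mem_range, not_lt] at h
    rw [Nat.choose_eq_zero_of_lt (by omega)]
    simp

section

variable {K : Type} [Field K]

/-- polynomials in the first variable over polynomials in the second one -/
noncomputable def ph : MvPolynomial (Fin 2) K →ₐ[K] Polynomial (Polynomial K) :=
  aeval ![Polynomial.X, Polynomial.C Polynomial.X]

theorem aeval_two (u v : Polynomial (Polynomial K)) (p : MvPolynomial (Fin 2) K) :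
    aeval ![u, v] p = ∑ m ∈ p.support,
      Polynomial.C (Polynomial.C (p.coeff m)) * (u ^ m 0 * v ^ m 1) := by
  rw [aeval_def, eval₂_eq']
  refine Finset.sum_congr rfl fun m _ => ?_
  rw [Fin.prod_univ_two]
  rfl

theorem ph_coeff (p : MvPolynomial (Fin 2) K) (t s : ℕ) :
    ((ph p).coeff t).coeff s =
      ∑ m ∈ p.support, if m 0 = t ∧ m 1 = s then p.coeff m else 0 := by
  rw [ph, aeval_two, Polynomial.finsetSum_coeff, Polynomial.finsetSum_coeff]
  refine Finset.sum_congr rfl fun m _ => ?_
  have h1 : Polynomial.C (Polynomial.C (p.coeff m)) *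
      ((Polynomial.X : Polynomial (Polynomial K)) ^ m 0 * Polynomial.C Polynomial.X ^ m 1) =
      Polynomial.C (Polynomial.C (p.coeff m) * Polynomial.X ^ m 1) * Polynomial.X ^ m 0 := by
    simp only [map_mul, map_pow]
    ring
  rw [h1, Polynomial.coeff_C_mul_X_pow]
  by_cases h0 : t = m 0
  · rw [if_pos h0, Polynomial.coeff_C_mul_X_pow]
    by_cases h2 : s = m 1
    · rw [if_pos h2, if_pos ⟨h0.symm, h2.symm⟩]
    · rw [if_neg h2, if_neg fun h => h2 h.2.symm]
  · rw [if_neg h0, if_neg fun h => h0 h.1.symm, Polynomial.coeff_zero]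

theorem ph_coeff_mem {p : MvPolynomial (Fin 2) K} {m : Fin 2 →₀ ℕ} (hm : m ∈ p.support) :
    ((ph p).coeff (m 0)).coeff (m 1) = p.coeff m := by
  rw [ph_coeff, Finset.sum_eq_single m]
  · rw [if_pos ⟨rfl, rfl⟩]
  · intro m' _ hne
    rw [if_neg]
    rintro ⟨h0, h1⟩
    apply hne
    ext j
    fin_cases j
    · exact h0
    · exact h1
  · intro h
    exact absurd hm h

theorem exists_of_ph_ne {p : MvPolynomial (Fin 2) K} {t s : ℕ}
    (h : ((ph p).coeff t).coeff s ≠ 0) : ∃ m ∈ p.support, m 0 = t ∧ m 1 = s := by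
  rw [ph_coeff] at h
  obtain ⟨m, hm, hne⟩ := Finset.exists_ne_zero_of_sum_ne_zero h
  refine ⟨m, hm, ?_⟩
  by_contra h1
  exact hne (if_neg h1)

theorem ph_aeval (F : Polynomial K) :
    ph (Polynomial.aeval (X 1 : MvPolynomial (Fin 2) K) F) = Polynomial.C F := by
  rw [← Polynomial.aeval_algHom_apply]
  have h1 : ph (X 1 : MvPolynomial (Fin 2) K) = Polynomial.C Polynomial.X := by
    simp [ph]
  rw [h1]
  induction F using Polynomial.induction_on' with
  | add p q hp hq => rw [map_add, hp, hq, map_add]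
  | monomial n a =>
    rw [Polynomial.aeval_monomial, ← map_pow, ← Polynomial.C_mul_X_pow_eq_monomial, map_mul]
    rfl

/-- the coefficients of the substituted polynomial -/
theorem sub_coeff (F : Polynomial K) (δ : K) (p : MvPolynomial (Fin 2) K) (t : ℕ) :
    (ph (aeval ![(X 1 : MvPolynomial (Fin 2) K), Polynomial.aeval (X 1 : MvPolynomial (Fin 2) K) F -
      C δ * X 0] p)).coeff t = ∑ m ∈ p.support, Polynomial.C (p.coeff m * (-δ) ^ t *
        ((m 1).choose t : K)) * (Polynomial.X ^ m 0 * F ^ (m 1 - t)) := by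
  rw [comp_aeval_apply]
  have h1 : (fun i => ph (![(X 1 : MvPolynomial (Fin 2) K),
      Polynomial.aeval (X 1 : MvPolynomial (Fin 2) K) F - C δ * X 0] i)) =
      ![Polynomial.C Polynomial.X, Polynomial.C F + Polynomial.C (Polynomial.C (-δ)) *
        Polynomial.X] := by
    funext i
    fin_cases i
    · simp [ph]
    · change ph (Polynomial.aeval (X 1 : MvPolynomial (Fin 2) K) F - C δ * X 0) =
        Polynomial.C F + Polynomial.C (Polynomial.C (-δ)) * Polynomial.X
      rw [map_sub, ph_aeval, map_mul]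
      have h2 : ph (C δ : MvPolynomial (Fin 2) K) = Polynomial.C (Polynomial.C δ) := by
        rw [ph, aeval_C]
        rfl
      have h3 : ph (X 0 : MvPolynomial (Fin 2) K) = Polynomial.X := by
        simp [ph]
      rw [h2, h3, map_neg, map_neg]
      ring
  rw [h1, aeval_two, Polynomial.finsetSum_coeff]
  refine Finset.sum_congr rfl fun m _ => ?_
  rw [← map_pow, ← mul_assoc, ← map_mul, Polynomial.coeff_C_mul, coeff_lin]
  simp only [map_mul, map_pow, map_natCast]
  ring

end

theorem hinv : Pool.Agent.Q256.HX.S_hinv := by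
  intro K _ F δ c hF hδ p hp hinv
  classical
  obtain ⟨d, hd⟩ : ∃ d, d = F.natDegree := ⟨_, rfl⟩
  obtain ⟨a, ha⟩ : ∃ a, a = F.leadingCoeff := ⟨_, rfl⟩
  have hF0 : F ≠ 0 := by
    rintro rfl
    simp at hF
  have ha0 : a ≠ 0 := by
    rw [ha]
    exact Polynomial.leadingCoeff_ne_zero.2 hF0
  have hd2 : 2 ≤ d := by omega
  have hδ0 : ∀ t : ℕ, (-δ) ^ t ≠ 0 := fun t => pow_ne_zero _ (neg_ne_zero.2 hδ)
  obtain ⟨w, hw, m0, hm0, hm0w⟩ : ∃ w, (∀ m ∈ p.support, m 0 + d * m 1 ≤ w) ∧
      ∃ m ∈ p.support, m 0 + d * m 1 = w := by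
    have hne : p.support.Nonempty := support_nonempty.2 hp
    obtain ⟨m, hm, hmax⟩ := Finset.exists_max_image p.support (fun m => m 0 + d * m 1) hne
    exact ⟨m 0 + d * m 1, hmax, m, hm, rfl⟩
  -- the identity for the coefficients
  have hid : ∀ t s, c * ((ph p).coeff t).coeff s = ∑ m ∈ p.support,
      (p.coeff m * (-δ) ^ t * ((m 1).choose t : K)) *
        (Polynomial.X ^ m 0 * F ^ (m 1 - t)).coeff s := by
    intro t s
    have h1 := sub_coeff F δ p t
    rw [hinv, map_mul] at h1
    have h2 : ph (C c : MvPolynomial (Fin 2) K) = Polynomial.C (Polynomial.C c) := by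
      rw [ph, aeval_C]
      rfl
    rw [h2, Polynomial.coeff_C_mul] at h1
    have h3 := congrArg (fun q => Polynomial.coeff q s) h1
    simp only [Polynomial.coeff_C_mul, Polynomial.finsetSum_coeff] at h3
    exact h3
  have hdegt : ∀ m ∈ p.support, ∀ t, t ≤ m 1 →
      (Polynomial.X ^ m 0 * F ^ (m 1 - t)).natDegree + d * t ≤ w := by
    intro m hm t ht
    have h1 : (Polynomial.X ^ m 0 * F ^ (m 1 - t)).natDegree ≤ m 0 + (m 1 - t) * d := by
      refine Polynomial.natDegree_mul_le.trans ?_
      rw [Polynomial.natDegree_X_pow, Polynomial.natDegree_pow, hd]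
    have h2 := hw m hm
    obtain ⟨u, hu⟩ := Nat.exists_eq_add_of_le ht
    have h3 : m 1 - t = u := by omega
    rw [h3] at h1
    rw [hu] at h2
    rw [h3]
    nlinarith
  have hA : ∀ t s, w < d * t + s → c * ((ph p).coeff t).coeff s = 0 := by
    intro t s hts
    rw [hid]
    refine Finset.sum_eq_zero fun m hm => ?_
    by_cases ht : t ≤ m 1
    · rw [Polynomial.coeff_eq_zero_of_natDegree_lt, mul_zero]
      have := hdegt m hm t ht
      omega
    · rw [Nat.choose_eq_zero_of_lt (by omega)]
      simp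
  -- the top form
  obtain ⟨P, hP⟩ : ∃ P : Polynomial K, P = ∑ m ∈ p.support.filter (fun m => m 0 + d * m 1 = w),
      Polynomial.monomial (m 1) (p.coeff m) := ⟨_, rfl⟩
  have hB : ∀ t s, d * t + s = w → c * ((ph p).coeff t).coeff s =
      (-δ) ^ t * (Polynomial.hasseDeriv t P).eval a := by
    intro t s hts
    rw [hid, hP, map_sum, Polynomial.eval_finsetSum, Finset.sum_filter, Finset.mul_sum]
    refine Finset.sum_congr rfl fun m hm => ?_
    by_cases ht : t ≤ m 1
    · obtain ⟨u, hu⟩ := Nat.exists_eq_add_of_le ht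
      have h3 : m 1 - t = u := by omega
      rw [h3]
      have h4 := hw m hm
      by_cases h5 : m 0 + d * m 1 = w
      · rw [if_pos h5, Polynomial.hasseDeriv_monomial, Polynomial.eval_monomial, h3]
        have h6 : s = u * F.natDegree + m 0 := by
          rw [← hd]
          rw [hu] at h5
          nlinarith
        rw [h6, Polynomial.coeff_X_pow_mul, Polynomial.coeff_pow_mul_natDegree, ← ha]
        ring
      · rw [if_neg h5, mul_zero]
        rw [Polynomial.coeff_eq_zero_of_natDegree_lt, mul_zero]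
        have h7 : (Polynomial.X ^ m 0 * F ^ u).natDegree ≤ m 0 + u * d := by
          refine Polynomial.natDegree_mul_le.trans ?_
          rw [Polynomial.natDegree_X_pow, Polynomial.natDegree_pow, hd]
        refine lt_of_le_of_lt h7 ?_
        have h8 : m 0 + d * m 1 < w := lt_of_le_of_ne h4 h5
        rw [hu] at h8
        nlinarith
    · rw [Nat.choose_eq_zero_of_lt (by omega)]
      split_ifs with h5
      · rw [Polynomial.hasseDeriv_monomial, Nat.choose_eq_zero_of_lt (by omega)]
        simp
      · simp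
  -- the coefficients of `P`
  have hPc : ∀ j, P.coeff j ≠ 0 → ∃ m ∈ p.support, m 0 + d * m 1 = w ∧ m 1 = j := by
    intro j hj
    rw [hP, Polynomial.finsetSum_coeff] at hj
    obtain ⟨m, hm, hne⟩ := Finset.exists_ne_zero_of_sum_ne_zero hj
    rw [Finset.mem_filter] at hm
    rw [Polynomial.coeff_monomial] at hne
    refine ⟨m, hm.1, hm.2, ?_⟩
    by_contra h
    exact hne (if_neg h)
  have hP0 : P ≠ 0 := by
    intro h0
    have h1 : P.coeff (m0 1) = p.coeff m0 := by
      rw [hP, Polynomial.finsetSum_coeff, Finset.sum_eq_single m0]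
      · rw [Polynomial.coeff_monomial, if_pos rfl]
      · intro m hm hne
        rw [Finset.mem_filter] at hm
        rw [Polynomial.coeff_monomial, if_neg]
        intro h1
        apply hne
        have h2 : m 0 = m0 0 := by
          have := hm.2
          rw [h1] at this
          omega
        ext j
        fin_cases j
        · exact h2
        · exact h1
      · intro h
        exact absurd (Finset.mem_filter.2 ⟨hm0, hm0w⟩) h
    rw [h0, Polynomial.coeff_zero] at h1
    exact (mem_support_iff.1 hm0) h1.symm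
  have hPdeg : d * P.natDegree ≤ w := by
    obtain ⟨m, -, hm, hm1⟩ := hPc P.natDegree
      (by rw [Polynomial.coeff_natDegree]; exact Polynomial.leadingCoeff_ne_zero.2 hP0)
    rw [← hm1]
    omega
  -- the multiplicities
  obtain ⟨j1, hj1⟩ : ∃ j1, j1 = P.natTrailingDegree := ⟨_, rfl⟩
  have hj1c : P.coeff j1 ≠ 0 := by
    rw [hj1]
    exact Polynomial.coeff_natTrailingDegree_ne_zero.2 hP0
  have hTP0 : Polynomial.taylor a P ≠ 0 := by
    intro h0
    apply hP0
    exact Polynomial.taylor_injective a (by rw [h0, map_zero])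
  obtain ⟨t0, ht0⟩ : ∃ t0, t0 = (Polynomial.taylor a P).natTrailingDegree := ⟨_, rfl⟩
  have ht0c : (Polynomial.hasseDeriv t0 P).eval a ≠ 0 := by
    rw [← Polynomial.taylor_coeff, ht0]
    exact Polynomial.coeff_natTrailingDegree_ne_zero.2 hTP0
  have hsum : t0 + j1 ≤ P.natDegree := by
    have h1 : (Polynomial.X - Polynomial.C a) ^ t0 ∣ P := by
      have h2 : Polynomial.X ^ t0 ∣ Polynomial.taylor a P := by
        rw [Polynomial.X_pow_dvd_iff]
        intro e he
        exact Polynomial.coeff_eq_zero_of_lt_natTrailingDegree (by omega)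
      obtain ⟨R, hR⟩ := h2
      refine ⟨Polynomial.taylor (-a) R, ?_⟩
      have h3 : P = Polynomial.taylor (-a) (Polynomial.taylor a P) := by
        rw [Polynomial.taylor_taylor]
        simp
      conv_lhs => rw [h3, hR]
      rw [Polynomial.taylor_mul, Polynomial.taylor_pow, Polynomial.taylor_X]
      simp [sub_eq_add_neg]
    have h2 : Polynomial.X ^ j1 ∣ P := by
      rw [Polynomial.X_pow_dvd_iff]
      intro e he
      exact Polynomial.coeff_eq_zero_of_lt_natTrailingDegree (by omega)
    have h3 : IsCoprime ((Polynomial.X - Polynomial.C a) ^ t0) (Polynomial.X ^ j1) := by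
      apply IsCoprime.pow
      have h4 := Polynomial.isCoprime_X_sub_C_of_isUnit_sub (a := a) (b := 0)
        (by rw [sub_zero]; exact ha0.isUnit)
      rwa [map_zero, sub_zero] at h4
    have h4 := h3.mul_dvd h1 h2
    have h5 := Polynomial.natDegree_le_of_dvd h4 hP0
    rw [Polynomial.natDegree_mul (pow_ne_zero _ (Polynomial.X_sub_C_ne_zero a))
      (pow_ne_zero _ Polynomial.X_ne_zero), Polynomial.natDegree_pow, Polynomial.natDegree_X_sub_C,
      Polynomial.natDegree_X_pow, mul_one] at h5
    exact h5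
  have hdt0 : d * t0 ≤ w := by nlinarith
  -- `c` is not zero
  have hct : c * ((ph p).coeff t0).coeff (w - d * t0) ≠ 0 := by
    rw [hB t0 (w - d * t0) (by omega)]
    exact mul_ne_zero (hδ0 _) ht0c
  have hc : c ≠ 0 := left_ne_zero_of_mul hct
  obtain ⟨m1, hm1, hm10, hm11⟩ := exists_of_ph_ne (right_ne_zero_of_mul hct)
  have hin1 := hw m1 hm1
  rw [hm10, hm11] at hin1
  have hle : ∀ m ∈ p.support, d * m 0 + m 1 ≤ w := by
    intro m hm
    by_contra h
    rw [not_le] at h
    have h1 := hA (m 0) (m 1) h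
    rw [ph_coeff_mem hm] at h1
    rcases mul_eq_zero.1 h1 with h2 | h2
    · exact hc h2
    · exact (mem_support_iff.1 hm) h2
  obtain ⟨m2, hm2, hm2w, hm21⟩ := hPc j1 hj1c
  have hin2 := hle m2 hm2
  rw [hm21] at hin2 hm2w
  -- the arithmetic
  have hw0 : w = 0 := by
    obtain ⟨e, rfl⟩ : ∃ e, d = e + 2 := ⟨d - 2, by omega⟩
    obtain ⟨v, hv⟩ : ∃ v, w = (e + 2) * t0 + v := ⟨w - (e + 2) * t0, by omega⟩
    have h1 : w - (e + 2) * t0 = v := by omega
    rw [h1] at hin1
    -- `t0 + (e+2) v ≤ w`, `(e+2) m2 0 + j1 ≤ w`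
    have h2 : (e + 1) * w ≤ (e + 1) * (e + 3) * t0 := by nlinarith
    have h3 : (e + 1) * w ≤ (e + 1) * (e + 3) * j1 := by nlinarith
    have h4 : w ≤ (e + 3) * t0 := by
      rw [mul_assoc] at h2
      exact Nat.le_of_mul_le_mul_left h2 (by omega)
    have h5 : w ≤ (e + 3) * j1 := by
      rw [mul_assoc] at h3
      exact Nat.le_of_mul_le_mul_left h3 (by omega)
    have h6 : 2 * w ≤ (e + 3) * P.natDegree := by nlinarith
    by_contra hw0
    have hw1 : 1 ≤ w := Nat.one_le_iff_ne_zero.2 hw0
    have h7 : (e + 2) * (2 * w) ≤ (e + 3) * w := by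
      calc (e + 2) * (2 * w) ≤ (e + 2) * ((e + 3) * P.natDegree) := Nat.mul_le_mul_left _ h6
        _ = (e + 3) * ((e + 2) * P.natDegree) := by ring
        _ ≤ (e + 3) * w := Nat.mul_le_mul_left _ hPdeg
    nlinarith
  refine ⟨p.coeff 0, ?_⟩
  have h1 : ∀ m ∈ p.support, m = 0 := by
    intro m hm
    have h2 := hw m hm
    rw [hw0] at h2
    have h3 : m 0 = 0 := by omega
    have h4 : m 1 = 0 := by
      have : d * m 1 = 0 := by omega
      rcases Nat.mul_eq_zero.1 this with h | h
      · omega
      · exact h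
    ext j
    fin_cases j
    · exact h3
    · exact h4
  ext m
  rw [coeff_C]
  split_ifs with h
  · rw [h]
  · by_contra h2
    exact h (h1 m (mem_support_iff.2 h2)).symm

end Pool.Agent.Q210.HX
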